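import Mathlib

open Finset

namespace H11.Wr

/-- A 1-design with block size `k ≥ 2` and replication number `r ≥ 1`. -/
def IsDesign {α : Type} (B : Set (Finset α)) (k r : ℕ) : Prop :=
  2 ≤ k ∧ 1 ≤ r ∧ (∀ b ∈ B, b.card = k) ∧ ∀ p, {b ∈ B | p ∈ b}.ncard = r

/-- An automorphism: a permutation of the points mapping the block set onto itself. -/
def IsAut {X : Type} (B : Set (Finset X)) (σ : Equiv.Perm X) : Prop :=
  (fun S => S.map σ.toEmbedding) '' B = B

variable {α Δ : Type} [Fintype α] [DecidableEq α] [DecidableEq Δ]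

/-- The part of `S` in `P̃ × {j}`, as a subset of `P̃`. -/
def fib (S : Finset (α × Δ)) (j : Δ) : Finset α := univ.filter fun p => (p, j) ∈ S

/-- The blocks of `D(D̃, e)`. -/
def blow (Δ : Type) [DecidableEq Δ] (B : Set (Finset α)) : Set (Finset (α × Δ)) :=
  {S | ∃ i, fib S i ∈ B ∧ ∀ j, j ≠ i → (fib S j).card = 1}

theorem aut_iff {X : Type} (B : Set (Finset X)) (σ : Equiv.Perm X) :
    IsAut B σ ↔ ∀ S, S.map σ.toEmbedding ∈ B ↔ S ∈ B := by
  constructor
  · intro h S
    conv_lhs => rw [← h]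
    exact (map_injective _).mem_set_image
  · intro h
    ext S
    refine ⟨?_, fun hS => ⟨S.map σ.symm.toEmbedding, (h _).1 ?_, ?_⟩⟩
    · rintro ⟨T, hT, rfl⟩
      exact (h T).2 hT
    all_goals simp [map_map, hS]

theorem fib_map (σ : Equiv.Perm (α × Δ)) (g : Δ → Equiv.Perm α) (τ : Equiv.Perm Δ)
    (h : ∀ p j, σ (p, j) = (g j p, τ j)) (S : Finset (α × Δ)) (l : Δ) :
    fib (S.map σ.toEmbedding) (τ l) = (fib S l).map (g l).toEmbedding := by
  ext p
  have : σ.symm (p, τ l) = ((g l).symm p, l) := by rw [Equiv.symm_apply_eq, h]; simp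
  simp [fib, this]

theorem blow_map (B : Set (Finset α)) (σ : Equiv.Perm (α × Δ)) (g : Δ → Equiv.Perm α)
    (τ : Equiv.Perm Δ) (h : ∀ p j, σ (p, j) = (g j p, τ j)) (S : Finset (α × Δ)) :
    S.map σ.toEmbedding ∈ blow Δ B ↔
      ∃ i, (fib S i).map (g i).toEmbedding ∈ B ∧ ∀ j, j ≠ i → (fib S j).card = 1 := by
  simp only [blow, Set.mem_setOf_eq]
  rw [τ.surjective.exists]
  refine exists_congr fun i => ?_
  rw [τ.surjective.forall]
  simp [fib_map σ g τ h]

/-- Build a set from its fibres. -/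
def mk [Fintype Δ] (F : Δ → Finset α) : Finset (α × Δ) := univ.filter fun x => x.1 ∈ F x.2

@[simp] theorem fib_mk [Fintype Δ] (F : Δ → Finset α) (j : Δ) : fib (mk F) j = F j := by
  ext; simp [fib, mk]

theorem fib_ins (S : Finset (α × Δ)) (x : α × Δ) (l : Δ) :
    fib (insert x S) l = if l = x.2 then insert x.1 (fib S l) else fib S l := by
  ext p
  split_ifs with h
  · simp [fib, Prod.ext_iff, h]
  · simp [fib, Prod.ext_iff, h]

def Lk {X : Type} [DecidableEq X] (D : Set (Finset X)) (S : Finset X) : Set X :=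
  {x | x ∉ S ∧ insert x S ∈ D}

def R {X : Type} [DecidableEq X] (D : Set (Finset X)) (k : ℕ) (x y : X) : Prop :=
  ∃ S, x ∈ Lk D S ∧ y ∈ Lk D S ∧ ∀ T ∈ D, ∀ U ⊆ T, (U : Set X) ⊆ Lk D S → U.card ≤ k

theorem R_map {X : Type} [DecidableEq X] {D : Set (Finset X)} {k : ℕ} {σ : Equiv.Perm X}
    (h : ∀ S, S.map σ.toEmbedding ∈ D ↔ S ∈ D) {x y : X} (hr : R D k (σ x) (σ y)) : R D k x y := by
  obtain ⟨S, h1, h2, h3⟩ := hr
  have e : ∀ z, z ∈ Lk D (S.map σ.symm.toEmbedding) ↔ σ z ∈ Lk D S := by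
    intro z
    simp only [Lk, Set.mem_setOf_eq]
    rw [← h]
    simp [map_insert, map_map]
  refine ⟨_, (e _).2 h1, (e _).2 h2, fun T hT U hU hL => ?_⟩
  rw [← card_map σ.toEmbedding]
  refine h3 _ ((h T).2 hT) _ (map_subset_map.2 hU) fun z hz => ?_
  obtain ⟨u, hu, rfl⟩ := mem_map.1 (mem_coe.1 hz)
  exact (e u).1 (hL hu)

theorem R_iff [Fintype Δ] {B : Set (Finset α)} {k r : ℕ} (hB : IsDesign B k r)
    (he : 2 ≤ Fintype.card Δ) (h3 : 3 ≤ Fintype.card Δ ∨ 3 ≤ k) (x y : α × Δ) :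
    R (blow Δ B) k x y ↔ x.2 = y.2 := by
  obtain ⟨hk, hr, hc, hp⟩ := hB
  have ex : ∀ p, ∃ b ∈ B, p ∈ b := fun p => by
    obtain ⟨b, hb⟩ := Set.nonempty_of_ncard_ne_zero (s := {b ∈ B | p ∈ b}) (by rw [hp]; omega)
    exact ⟨b, hb⟩
  have sz : ∀ T ∈ blow Δ B, ∃ a, ∀ l, (fib T l).card = if l = a then k else 1 := by
    rintro T ⟨a, h1, h2⟩
    refine ⟨a, fun l => ?_⟩
    split_ifs with h
    · exact h ▸ hc _ h1
    · exact h2 l h
  constructor
  · rintro ⟨S, ⟨x1, x2⟩, ⟨y1, y2⟩, hS⟩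
    by_contra hn
    obtain ⟨a, ha⟩ := sz _ x2
    obtain ⟨b, hb⟩ := sz _ y2
    have a1 := ha x.2
    have a2 := ha y.2
    have b1 := hb x.2
    have b2 := hb y.2
    rw [fib_ins, if_pos rfl, card_insert_of_notMem (by simpa [fib] using x1)] at a1
    rw [fib_ins, if_neg (Ne.symm hn)] at a2
    rw [fib_ins, if_neg hn] at b1
    rw [fib_ins, if_pos rfl, card_insert_of_notMem (by simpa [fib] using y1)] at b2
    have k2 : k = 2 ∧ x.2 = a ∧ (fib S x.2).card = 1 := by
      split_ifs at a1 b1 <;> simp_all <;> omega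
    obtain ⟨rfl, rfl, k3⟩ := k2
    have one : ∀ l, ∃ s, fib S l = {s} := fun l => card_eq_one.1 (by
      by_cases e : l = x.2
      · exact e ▸ k3
      · have := ha l
        rwa [fib_ins, if_neg e, if_neg e] at this)
    choose s hs using one
    have two : ∀ l, ∃ t, t ≠ s l ∧ {t, s l} ∈ B := fun l => by
      obtain ⟨b, h1, h2⟩ := ex (s l)
      obtain ⟨u, v, huv, rfl⟩ := card_eq_two.1 (hc b h1)
      simp only [mem_insert, mem_singleton] at h2
      rcases h2 with h | h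
      · exact ⟨v, h ▸ huv.symm, by rw [h, pair_comm]; exact h1⟩
      · exact ⟨u, h ▸ huv, h ▸ h1⟩
    choose t ht1 ht2 using two
    have := hS (mk fun l => if l = x.2 then {t l, s l} else {t l})
      ⟨x.2, by simpa using ht2 _, fun j hj => by simp [hj]⟩
      (univ.map ⟨fun l => (t l, l), fun _ _ e => (Prod.ext_iff.1 e).2⟩) ?_ ?_
    · simp at this
      omega
    · intro z hz
      obtain ⟨l, -, rfl⟩ := mem_map.1 hz
      simp only [mk, mem_filter, mem_univ, true_and, Function.Embedding.coeFn_mk]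
      split_ifs <;> simp
    · intro z hz
      obtain ⟨l, -, rfl⟩ := mem_map.1 (mem_coe.1 hz)
      refine ⟨fun h => ht1 l (mem_singleton.1 (hs l ▸ (by simpa [fib] using h))), l, ?_,
        fun j hj => ?_⟩
      · simpa [fib_ins, hs] using ht2 l
      · simp [fib_ins, hs, hj]
  · intro hxy
    obtain ⟨j, hj⟩ := Fintype.exists_ne_of_one_lt_card he x.2
    obtain ⟨b, hb, -⟩ := ex x.1
    have m : ∀ z : α × Δ, z ∈ Lk (blow Δ B)
        (mk fun l => if l = j then b else if l = x.2 then ∅ else {x.1}) ↔ z.2 = x.2 := by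
      intro z
      constructor
      · rintro ⟨-, h⟩
        obtain ⟨a, ha⟩ := sz _ h
        by_contra hn
        have := ha x.2
        simp only [fib_ins, if_neg (Ne.symm hn), fib_mk, if_neg hj.symm, if_true, card_empty] at this
        split_ifs at this <;> omega
      · intro h
        refine ⟨by simp [mk, h, hj.symm], j, by simpa [fib_ins, h, hj] using hb, fun l hl => ?_⟩
        simp only [fib_ins, h, fib_mk, if_neg hl]
        split_ifs <;> simp
    refine ⟨_, (m x).2 rfl, (m y).2 hxy.symm, fun T hT U hU hL => ?_⟩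
    obtain ⟨a, ha⟩ := sz _ hT
    refine le_trans (card_le_card_of_injOn (t := fib T x.2) Prod.fst (fun z hz => ?_)
      fun z hz z' hz' e => Prod.ext e (((m z).1 (hL hz)).trans ((m z').1 (hL hz')).symm)) ?_
    · simpa [fib, ← (m z).1 (hL hz)] using hU hz
    · rw [ha]; split_ifs <;> omega

end H11.Wr

open H11.Wr

theorem Pool.Agent.Results.MP_482303_co.Wreath.result (α Δ : Type) [Fintype α] [DecidableEq α]
    [Fintype Δ] [DecidableEq Δ] [Nonempty α] (B : Set (Finset α)) (k r : ℕ) (hB : IsDesign B k r)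
    (he : 2 ≤ Fintype.card Δ) (h3 : 3 ≤ Fintype.card Δ ∨ 3 ≤ k) (σ : Equiv.Perm (α × Δ)) :
    IsAut (blow Δ B) σ ↔ ∃ (g : Δ → Equiv.Perm α) (τ : Equiv.Perm Δ),
      (∀ j, IsAut B (g j)) ∧ ∀ p j, σ (p, j) = (g j p, τ j) := by
  simp only [aut_iff]
  constructor
  · intro h
    have h' : ∀ S, S.map σ.symm.toEmbedding ∈ blow Δ B ↔ S ∈ blow Δ B := fun S => by
      rw [← h]; simp [map_map]
    have key : ∀ x y, (σ x).2 = (σ y).2 ↔ x.2 = y.2 := fun x y => by
      rw [← R_iff hB he h3, ← R_iff hB he h3]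
      exact ⟨R_map h, fun hr => R_map h' (by simpa using hr)⟩
    obtain ⟨p0⟩ := ‹Nonempty α›
    let τ : Equiv.Perm Δ := Equiv.ofBijective (fun j => (σ (p0, j)).2)
      (Finite.injective_iff_bijective.1 fun a b e => (key _ _).1 e)
    let g : Δ → Equiv.Perm α := fun j => Equiv.ofBijective (fun p => (σ (p, j)).1)
      (Finite.injective_iff_bijective.1 fun a b e =>
        (Prod.ext_iff.1 (σ.injective (Prod.ext e ((key _ _).2 rfl)))).1)
    have hσ : ∀ p j, σ (p, j) = (g j p, τ j) := fun p j => Prod.ext rfl ((key _ _).2 rfl)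
    refine ⟨g, τ, fun j b => ?_, hσ⟩
    have := h (mk fun l => if l = j then b else {p0})
    rw [blow_map B σ g τ hσ] at this
    have n1 : ∀ p : α, {p} ∉ B := fun p hp => by
      have := hB.2.2.1 _ hp
      have := hB.1
      simp at *
      omega
    simp only [blow, Set.mem_setOf_eq, fib_mk] at this
    constructor
    · intro hb
      obtain ⟨i, h1, -⟩ := this.1 ⟨j, by simpa using hb, fun l hl => by simp [hl]⟩
      split_ifs at h1
      · exact h1
      · exact absurd h1 (n1 _)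
    · intro hb
      obtain ⟨i, h1, -⟩ := this.2 ⟨j, by simpa using hb, fun l hl => by simp [hl]⟩
      split_ifs at h1 with e
      · exact e ▸ h1
      · exact absurd (by simpa using h1) (n1 _)
  · rintro ⟨g, τ, h1, h2⟩ S
    rw [blow_map B σ g τ h2]
    simp only [h1]
    rfl
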